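import Pool.Agent.Lib_helper53.OW.Ext

/-!
# Cuts, rooted cuts, the edge lemma and the gain of the last step

Section 1.5, 1.6, 1.8, 1.9. `S` is `K`-critical, `R` a proper subset.
-/

set_option autoImplicit false
set_option linter.unusedSectionVars false
set_option linter.unusedVariables false

open scoped Classical
open Finset
open Pool.Agent.O2 (PC Cb CrOn pr ms dg nd Joined addE cb_mono cb_sub cb_fin cb_of_pc pc_sub
  exists_crOn pr_sum pr_sum' pr_symm pr_mono dg_mono dg_union)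
open Pool.Agent.O3 (con hit)

namespace Pool.Agent.OW

variable {V : Type}

/-- two colourings of complementary parts conflict in an edge -/
theorem glue {K : ℕ} {G : SimpleGraph V} {S R : Finset V} (hS : ¬ Cb G S K) (hR : R ⊆ S)
    {φ χ : V → Fin K} (hφ : PC G R φ) (hχ : PC G (S \ R) χ) :
    ∃ a ∈ R, ∃ b ∈ S \ R, G.Adj a b ∧ φ a = χ b := by
  by_contra hcon
  push Not at hcon
  apply hS
  apply cb_of_pc (φ := fun v => if v ∈ R then φ v else χ v)
  intro a ha b hb hab
  by_cases h1 : a ∈ R <;> by_cases h2 : b ∈ R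
  · simp only [h1, h2, if_true]
    exact hφ a h1 b h2 hab
  · simp only [h1, h2, if_true, if_false]
    exact hcon a h1 b (mem_sdiff.2 ⟨hb, h2⟩) hab
  · simp only [h1, h2, if_true, if_false]
    exact (hcon b h2 a (mem_sdiff.2 ⟨ha, h1⟩) hab.symm).symm
  · simp only [h1, h2, if_false]
    exact hχ a (mem_sdiff.2 ⟨ha, h1⟩) b (mem_sdiff.2 ⟨hb, h2⟩) hab

theorem card_of_surj {α : Type} {m : ℕ} (X : Finset α) (f : α → Fin m)
    (h : ∀ j : Fin m, ∃ x ∈ X, f x = j) : m ≤ X.card := by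
  have h1 : (univ : Finset (Fin m)) ⊆ X.image f := by
    intro j _
    obtain ⟨x, hx, hj⟩ := h j
    exact mem_image.2 ⟨x, hx, hj⟩
  have h2 := (card_le_card h1).trans card_image_le
  simpa using h2

/-- every cut of a critical set has at least `K` edges -/
theorem cut_ge {K : ℕ} {G : SimpleGraph V} {S R : Finset V} (hS : CrOn G S K) (hR : R ⊆ S)
    (h0 : R.Nonempty) (h1 : R ≠ S) : K ≤ pr G R (S \ R) := by
  rcases Nat.eq_zero_or_pos K with rfl | hK
  · exact Nat.zero_le _
  have : NeZero K := ⟨hK.ne'⟩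
  obtain ⟨φ, hφ⟩ := (cb_fin hK).1 (hS.sub hR h1)
  have h2 : S \ R ≠ S := by
    intro h
    obtain ⟨r, hr⟩ := h0
    have h3 := hR hr
    rw [← h] at h3
    exact (mem_sdiff.1 h3).2 hr
  obtain ⟨χ, hχ⟩ := (cb_fin hK).1 (hS.sub sdiff_subset h2)
  unfold pr
  apply card_of_surj _ (fun p : V × V => φ p.1 - χ p.2)
  intro j
  obtain ⟨a, ha, b, hb, hab, he⟩ := glue (χ := fun v => χ v + j) hS.1 hR hφ (by
    intro a ha b hb hab h
    exact hχ a ha b hb hab (add_right_cancel h))
  refine ⟨(a, b), mem_filter.2 ⟨mem_product.2 ⟨ha, hb⟩, hab⟩, ?_⟩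
  simp only
  rw [he]
  exact add_sub_cancel_left _ _

/-- the rooted cut: if the root `v0` has its own colour on the boundary -/
theorem rooted_cut {K : ℕ} {G : SimpleGraph V} {S R : Finset V} (hS : CrOn G S K) (hR : R ⊆ S)
    (h2 : 2 ≤ R.card) {v0 : V} (hv : v0 ∈ R) {ψ : V → Fin K} (hψ : PC G R ψ)
    (h : ∀ r ∈ R, r ≠ v0 → (∃ t ∈ S \ R, G.Adj r t) → ψ r ≠ ψ v0) :
    K - 1 ≤ pr G (R.erase v0) (S \ R) := by
  obtain ⟨m, rfl⟩ : ∃ m, K = m + 1 := ⟨K - 1, by have := (ψ v0).2; omega⟩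
  rw [Nat.add_sub_cancel]
  rcases Nat.eq_zero_or_pos m with rfl | hm
  · exact Nat.zero_le _
  have : NeZero m := ⟨hm.ne'⟩
  obtain ⟨w, hw, hwv⟩ : ∃ w ∈ R, w ≠ v0 := by
    by_contra hcon
    push Not at hcon
    have h3 : R ⊆ {v0} := fun w hw => mem_singleton.2 (hcon w hw)
    have h4 := card_le_card h3
    rw [card_singleton] at h4
    omega
  have hT : insert v0 (S \ R) ⊆ S := by
    intro x hx
    rcases mem_insert.1 hx with rfl | hx
    · exact hR hv
    · exact (mem_sdiff.1 hx).1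
  have hT' : insert v0 (S \ R) ≠ S := by
    intro h3
    have h4 := hR hw
    rw [← h3] at h4
    rcases mem_insert.1 h4 with h5 | h5
    · exact hwv h5
    · exact (mem_sdiff.1 h5).2 hw
  obtain ⟨χ0, hχ0⟩ := (cb_fin (Nat.succ_pos m)).1 (hS.sub hT hT')
  -- normalise the colour of the root
  obtain ⟨χ, hχ, hχv⟩ : ∃ χ : V → Fin (m + 1), PC G (insert v0 (S \ R)) χ ∧ χ v0 = ψ v0 := by
    refine ⟨fun v => Equiv.swap (χ0 v0) (ψ v0) (χ0 v), ?_, ?_⟩
    · intro a ha b hb hab he
      exact hχ0 a ha b hb hab ((Equiv.swap (χ0 v0) (ψ v0)).injective he)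
    · simp
  have hp : ∃ p : Fin (m + 1) → Fin m, ∀ c, c ≠ ψ v0 → (ψ v0).succAbove (p c) = c := by
    have h5 : ∀ c : Fin (m + 1), ∃ d : Fin m, c ≠ ψ v0 → (ψ v0).succAbove d = c := by
      intro c
      by_cases hc : c = ψ v0
      · exact ⟨0, fun h => absurd hc h⟩
      · obtain ⟨d, hd⟩ := Fin.exists_succAbove_eq hc
        exact ⟨d, fun _ => hd⟩
    choose p hp using h5
    exact ⟨p, hp⟩
  obtain ⟨p, hp⟩ := hp
  unfold pr
  apply card_of_surj _ (fun q : V × V => p (ψ q.1) - p (χ q.2))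
  intro j
  -- the shifted colouring
  have hinj : ∀ x y : Fin (m + 1),
      (if x = ψ v0 then ψ v0 else (ψ v0).succAbove (p x + j)) =
      (if y = ψ v0 then ψ v0 else (ψ v0).succAbove (p y + j)) → x = y := by
    intro x y hxy
    by_cases hx : x = ψ v0 <;> by_cases hy : y = ψ v0
    · rw [hx, hy]
    · rw [if_pos hx, if_neg hy] at hxy
      exact absurd hxy.symm (Fin.succAbove_ne _ _)
    · rw [if_neg hx, if_pos hy] at hxy
      exact absurd hxy (Fin.succAbove_ne _ _)
    · rw [if_neg hx, if_neg hy] at hxy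
      have h6 := Fin.succAbove_right_injective hxy
      have h7 := add_right_cancel h6
      rw [← hp x hx, ← hp y hy, h7]
  obtain ⟨a, ha, b, hb, hab, he⟩ := glue
    (χ := fun v => if χ v = ψ v0 then ψ v0 else (ψ v0).succAbove (p (χ v) + j)) hS.1 hR hψ (by
    intro a ha b hb hab h
    exact hχ a (mem_insert_of_mem ha) b (mem_insert_of_mem hb) hab (hinj _ _ h))
  have hav : a ≠ v0 := by
    rintro rfl
    by_cases h8 : χ b = ψ a
    · exact hχ a (mem_insert_self _ _) b (mem_insert_of_mem hb) hab (by rw [hχv, h8])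
    · simp only [h8, if_false] at he
      exact Fin.succAbove_ne _ _ he.symm
  have hac : ψ a ≠ ψ v0 := h a ha hav ⟨b, hb, hab⟩
  have hbc : χ b ≠ ψ v0 := by
    intro h8
    simp only [h8, if_true] at he
    exact hac he
  simp only [hbc, if_false] at he
  refine ⟨(a, b), mem_filter.2 ⟨mem_product.2 ⟨mem_erase.2 ⟨hav, ha⟩, hb⟩, hab⟩, ?_⟩
  simp only
  rw [← hp (ψ a) hac] at he
  have h9 := Fin.succAbove_right_injective he
  rw [h9]
  exact add_sub_cancel_left _ _

/-- pairs of elements of a weighted set which do not lie in a heavy set -/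
theorem pairing {α : Type} (B : Finset α) : ∀ (i : ℕ) (w : α → ℕ), (∀ b ∈ B, w b ≤ i) →
    2 * i ≤ ∑ b ∈ B, w b → ∃ F : Finset (α × α), F.card ≤ i ∧
      (∀ p ∈ F, p.1 ∈ B ∧ p.2 ∈ B ∧ p.1 ≠ p.2) ∧
      ∀ I ⊆ B, (∀ p ∈ F, ¬ (p.1 ∈ I ∧ p.2 ∈ I)) → i ≤ ∑ b ∈ B \ I, w b := by
  intro i
  induction i with
  | zero =>
    intro w _ _
    exact ⟨∅, by simp, by simp, fun I _ _ => Nat.zero_le _⟩
  | succ i ih =>
    intro w hw hs
    have hB : B.Nonempty := by
      rw [nonempty_iff_ne_empty]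
      rintro rfl
      simp at hs
    obtain ⟨x, hx, hxm⟩ := exists_max_image B w hB
    have hB' : (B.erase x).Nonempty := by
      rw [nonempty_iff_ne_empty]
      intro h0
      have h1 : ∑ b ∈ B, w b = w x + ∑ b ∈ B.erase x, w b := (add_sum_erase B w hx).symm
      rw [h0, sum_empty] at h1
      have := hw x hx
      omega
    obtain ⟨y, hy, hym⟩ := exists_max_image (B.erase x) w hB'
    obtain ⟨hyx, hyB⟩ := mem_erase.1 hy
    have e1 : ∑ b ∈ B, w b = w x + (w y + ∑ b ∈ (B.erase x).erase y, w b) := by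
      rw [add_sum_erase (B.erase x) w hy, add_sum_erase B w hx]
    have hy1 : 1 ≤ w y := by
      by_contra h0
      have h1 : ∑ b ∈ (B.erase x).erase y, w b = 0 := by
        apply sum_eq_zero
        intro b hb
        have := hym b (mem_erase.1 hb).2
        omega
      have := hw x hx
      omega
    have hx1 : 1 ≤ w x := hy1.trans (hxm y hyB)
    set w' : α → ℕ := fun b => if b = x ∨ b = y then w b - 1 else min (w b) i with hw'
    have hle : ∀ b, w' b ≤ w b := by
      intro b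
      simp only [hw']
      split_ifs
      · exact Nat.sub_le _ _
      · exact min_le_left _ _
    have hxw : w' x + 1 = w x := by simp only [hw', true_or, if_true]; omega
    have hyw : w' y + 1 = w y := by simp only [hw', or_true, if_true]; omega
    have e2 : ∑ b ∈ B, w' b = w' x + (w' y + ∑ b ∈ (B.erase x).erase y, w' b) := by
      rw [add_sum_erase (B.erase x) w' hy, add_sum_erase B w' hx]
    obtain ⟨F, hF1, hF2, hF3⟩ := ih w' (by
      intro b hb
      simp only [hw']
      split_ifs with h0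
      · have := hw b hb
        omega
      · exact min_le_right _ _) (by
      by_cases h0 : ∃ z ∈ (B.erase x).erase y, w z = i + 1
      · obtain ⟨z, hz, hzi⟩ := h0
        have h3 := hym z (mem_erase.1 hz).2
        have h4 := hxm y hyB
        rw [e2]
        omega
      · push Not at h0
        have h3 : ∑ b ∈ (B.erase x).erase y, w' b = ∑ b ∈ (B.erase x).erase y, w b := by
          apply sum_congr rfl
          intro b hb
          obtain ⟨hb1, hb2⟩ := mem_erase.1 hb
          obtain ⟨hb3, hb4⟩ := mem_erase.1 hb2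
          have h5 := h0 b hb
          have h6 := hw b hb4
          simp only [hw', hb1, hb3, or_self, if_false]
          exact min_eq_left (by omega)
        rw [e2, h3]
        omega)
    refine ⟨insert (x, y) F, (card_insert_le _ _).trans (by omega), ?_, ?_⟩
    · intro p hp
      rcases mem_insert.1 hp with rfl | hp
      · exact ⟨hx, hyB, hyx.symm⟩
      · exact hF2 p hp
    · intro I hI hind
      have h3 := hF3 I hI fun p hp => hind p (mem_insert_of_mem hp)
      have h4 := hind (x, y) (mem_insert_self _ _)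
      simp only [not_and_or] at h4
      have key : ∀ z, z ∈ B → z ∉ I → w' z + 1 = w z → i + 1 ≤ ∑ b ∈ B \ I, w b := by
        intro z hz hzI hzw
        have hz' : z ∈ B \ I := mem_sdiff.2 ⟨hz, hzI⟩
        have h5 : ∑ b ∈ B \ I, w' b < ∑ b ∈ B \ I, w b :=
          sum_lt_sum (fun b _ => hle b) ⟨z, hz', by omega⟩
        omega
      rcases h4 with h4 | h4
      · exact key x hx h4 hxw
      · exact key y hyB h4 hyw

/-- the colouring of a part whose colour classes all leave many boundary edges -/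
theorem edge_lemma {K i : ℕ} {G : SimpleGraph V} {S R : Finset V} (hS : CrOn G S K)
    (hAE : ∀ F : Finset (V × V), (∀ p ∈ F, p.1 ∈ R ∧ p.2 ∈ R ∧ p.1 ≠ p.2) → F.card ≤ i →
      Cb (addE G F) R K)
    (hi : 2 * i ≤ K) (hR : R ⊆ S) (h1 : R ≠ S) (hc : 2 ≤ R.card) :
    ∃ ψ : V → Fin K, PC G R ψ ∧ ∀ c, i ≤ pr G (R.filter fun r => ψ r ≠ c) (S \ R) := by
  have hne : R.Nonempty := card_pos.1 (by omega)
  have hcut := cut_ge hS hR hne h1
  have hK : 0 < K := by
    by_contra h0
    have h2 : K = 0 := by omega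
    subst h2
    have h3 := hS.sub hR h1
    obtain ⟨φ, h4, -⟩ := h3
    obtain ⟨r, hr⟩ := hne
    exact absurd (h4 r hr) (Nat.not_lt_zero _)
  have hadd : ∀ F : Finset (V × V), ∀ ψ : V → Fin K, PC (addE G F) R ψ → PC G R ψ :=
    fun F ψ h a ha b hb hab => h a ha b hb (Or.inl hab)
  have haddF : ∀ F : Finset (V × V), ∀ ψ : V → Fin K, PC (addE G F) R ψ →
      ∀ p ∈ F, p.1 ∈ R → p.2 ∈ R → p.1 ≠ p.2 → ψ p.1 ≠ ψ p.2 :=
    fun F ψ h p hp h1 h2 h3 => h p.1 h1 p.2 h2 (Or.inr ⟨h3, Or.inl hp⟩)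
  rcases Nat.eq_zero_or_pos i with rfl | hi0
  · obtain ⟨ψ, hψ⟩ := (cb_fin hK).1 (hS.sub hR h1)
    exact ⟨ψ, hψ, fun c => Nat.zero_le _⟩
  by_cases hbig : ∃ v0 ∈ R, i ≤ dg G (S \ R) v0
  · -- Case 1
    obtain ⟨v0, hv0, hv1⟩ := hbig
    set B' := (R.erase v0).filter fun r => 1 ≤ dg G (S \ R) r with hB'
    obtain ⟨B2, hB2, hB2i, hB2w⟩ : ∃ B2 ⊆ B', B2.card ≤ i ∧
        (B2 = B' ∨ i ≤ ∑ r ∈ B2, dg G (S \ R) r) := by
      by_cases h0 : B'.card ≤ i
      · exact ⟨B', Subset.refl _, h0, Or.inl rfl⟩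
      · obtain ⟨B2, h2, h3⟩ := exists_subset_card_eq (s := B') (n := i) (by omega)
        refine ⟨B2, h2, h3.le, Or.inr ?_⟩
        calc i = ∑ r ∈ B2, 1 := by rw [sum_const, smul_eq_mul, mul_one, h3]
          _ ≤ _ := sum_le_sum fun r hr => (mem_filter.1 (h2 hr)).2
    have hmem : ∀ r ∈ B2, r ∈ R ∧ r ≠ v0 := by
      intro r hr
      have h2 := (mem_filter.1 (hB2 hr)).1
      exact ⟨(mem_erase.1 h2).2, (mem_erase.1 h2).1⟩
    obtain ⟨ψ, hψ⟩ := (cb_fin hK).1 (hAE (B2.image fun b => (v0, b)) (by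
      intro p hp
      obtain ⟨b, hb, rfl⟩ := mem_image.1 hp
      exact ⟨hv0, (hmem b hb).1, (hmem b hb).2.symm⟩) (card_image_le.trans hB2i))
    have hψG := hadd _ ψ hψ
    have hne0 : ∀ r ∈ B2, ψ r ≠ ψ v0 := fun r hr =>
      (haddF _ ψ hψ (v0, r) (mem_image.2 ⟨r, hr, rfl⟩) hv0 (hmem r hr).1 (hmem r hr).2.symm).symm
    refine ⟨ψ, hψG, fun c => ?_⟩
    by_cases hcv : ψ v0 = c
    · subst hcv
      have h3 : i ≤ pr G B2 (S \ R) := by
        rcases hB2w with h4 | h4
        · subst h4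
          have h5 := rooted_cut hS hR hc hv0 hψG (fun r hr hrv ⟨t, ht, hrt⟩ =>
            hne0 r (mem_filter.2 ⟨mem_erase.2 ⟨hrv, hr⟩,
              card_pos.2 ⟨t, mem_filter.2 ⟨ht, hrt⟩⟩⟩))
          have h6 : pr G (R.erase v0) (S \ R) = pr G B' (S \ R) := by
            rw [pr_sum, pr_sum, hB', sum_filter]
            apply sum_congr rfl
            intro r _
            split_ifs with h7
            · rfl
            · omega
          rw [h6] at h5
          omega
        · rw [pr_sum]; exact h4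
      refine h3.trans (pr_mono ?_ (Subset.refl _))
      intro r hr
      exact mem_filter.2 ⟨(hmem r hr).1, hne0 r hr⟩
    · have h3 : pr G {v0} (S \ R) = dg G (S \ R) v0 := by rw [pr_sum, sum_singleton]
      rw [← h3] at hv1
      refine hv1.trans (pr_mono ?_ (Subset.refl _))
      rw [singleton_subset_iff]
      exact mem_filter.2 ⟨hv0, hcv⟩
  · -- Case 2
    push Not at hbig
    rw [pr_sum] at hcut
    obtain ⟨F, hF1, hF2, hF3⟩ := pairing R i (fun r => dg G (S \ R) r)
      (fun b hb => (hbig b hb).le) (by omega)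
    obtain ⟨ψ, hψ⟩ := (cb_fin hK).1 (hAE F hF2 hF1)
    refine ⟨ψ, hadd _ ψ hψ, fun c => ?_⟩
    have h2 := hF3 (R.filter fun r => ψ r = c) (filter_subset _ _) (by
      rintro p hp ⟨h3, h4⟩
      obtain ⟨h5, h6, h7⟩ := hF2 p hp
      exact haddF F ψ hψ p hp h5 h6 h7 ((mem_filter.1 h3).2.trans (mem_filter.1 h4).2.symm))
    have h3 : R \ (R.filter fun r => ψ r = c) = R.filter fun r => ψ r ≠ c := by
      ext r
      simp only [mem_sdiff, mem_filter, not_and, ne_eq]
      constructor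
      · rintro ⟨h4, h5⟩
        exact ⟨h4, h5 h4⟩
      · rintro ⟨h4, h5⟩
        exact ⟨h4, fun _ => h5⟩
    rw [h3] at h2
    rw [pr_sum]
    exact h2

/-- the gain of a last step which contracts only one colour class -/
theorem gain_one {K : ℕ} (G : SimpleGraph V) (R A : Finset V) (ψ : V → Fin K)
    (c : Fin K) : (pr G (R.filter fun r => ψ r ≠ c) A : ℤ) ≤ gain G R ψ A {c} := by
  have h1 : ∀ v ∈ A, (dg G (R.filter fun r => ψ r ≠ c) v : ℤ) ≤
      (dg G R v : ℤ) - (hit G R ψ v ∩ {c}).card := by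
    intro v _
    have h2 : dg G R v = dg G (R.filter fun r => ψ r ≠ c) v +
        dg G (R.filter fun r => ¬ ψ r ≠ c) v := by
      rw [← dg_union (disjoint_filter_filter_not _ _ _), filter_union_filter_not_eq]
    have h3 : (hit G R ψ v ∩ {c}).card ≤ dg G (R.filter fun r => ¬ ψ r ≠ c) v := by
      by_cases h4 : c ∈ hit G R ψ v
      · rw [inter_singleton_of_mem h4, card_singleton]
        rw [hit, mem_filter] at h4
        obtain ⟨-, y, hy, hyc, hvy⟩ := h4
        exact card_pos.2 ⟨y, mem_filter.2 ⟨mem_filter.2 ⟨hy, not_not.2 hyc⟩, hvy⟩⟩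
      · rw [inter_singleton_of_notMem h4, card_empty]
        exact Nat.zero_le _
    rw [h2]
    push_cast
    have h5 : ((hit G R ψ v ∩ {c}).card : ℤ) ≤ dg G (R.filter fun r => ¬ ψ r ≠ c) v := by
      exact_mod_cast h3
    linarith
  unfold gain
  rw [pr_symm, pr_sum]
  push_cast
  exact sum_le_sum h1

end Pool.Agent.OW
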