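import Pool.Agent.Lib_helper63.OW.FR

/-!
# The flex reduction for the last step
-/

set_option autoImplicit false
set_option linter.unusedSectionVars false
set_option linter.unusedVariables false

open scoped Classical
open Finset
open Pool.Agent.O2 (PC Cb CrOn pr ms dg nd addE)
open Pool.Agent.O3 (con hit Clq Non)
open Pool.Agent.OW
open Pool.Agent.OW.S5

namespace Pool.Agent.OW63

variable {V : Type}

/-- `fr_abs` without intersections -/
theorem fr_abs' {K : ℕ} {b : ℕ → ℤ} (T : T5 K b) {G : SimpleGraph V} {H Zf : Finset V}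
    (ih : IH K b (H.card + 1)) (hH : Tgt K b G H) (hZ : Zf ⊆ H) (hZc : Clq G Zf)
    (hZn : Zf.Nonempty)
    (hsm : ∀ R, PS G H R → Yy G K b R ≤ 2 → ∃ z ∈ R, z ∈ Zf) :
    H.card = K + 1 ∨
    ∃ T ⊆ H, (∀ t ∈ T, t ∉ Zf) ∧ T.card = K ∧ Clq G T ∧ ∃ t0, ∀ t ∈ T, t ≠ t0 → dg G H t = K := by
  rcases fr_abs T ih hH hZ hZc hZn (fun R hR hY => by
    obtain ⟨z, hz, hz'⟩ := hsm R hR hY
    exact ⟨z, mem_inter.2 ⟨hz, hz'⟩⟩) with h | ⟨T', h1, h2, h3, h4⟩
  · exact Or.inl h
  · exact Or.inr ⟨T', h1.trans sdiff_subset, fun t ht => (mem_sdiff.1 (h1 ht)).2, h2, h3, h4⟩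

section

variable {K : ℕ} {b : ℕ → ℤ} {G : SimpleGraph V} {S R : Finset V} {ψ : V → Fin K} {A : Finset V}
  {Z : Finset (Fin K)}

/-- the contracted classes form a clique -/
theorem clq_classes (G : SimpleGraph V) (R : Finset V) (ψ : V → Fin K) (Z : Finset (Fin K)) :
    Clq (con G R ψ) ((∅ : Finset V).disjSum Z) := by
  intro x hx y hy hxy
  rcases x with x | i
  · exact absurd (inl_mem_disjSum.1 hx) (notMem_empty x)
  · rcases y with y | j
    · exact absurd (inl_mem_disjSum.1 hy) (notMem_empty y)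
    · show i ≠ j
      rintro rfl
      exact hxy rfl

/-- a clique in `A` is a clique in the contraction and conversely -/
theorem clq_inl {T : Finset V} (h : Clq (con G R ψ) (T.disjSum ∅)) : Clq G T := by
  intro a ha c hc hac
  exact h (Sum.inl a) (inl_mem_disjSum.2 ha) (Sum.inl c) (inl_mem_disjSum.2 hc)
    (fun e => hac (Sum.inl_injective e))

/-- the flex reduction, without assumption on the loss -/
theorem flex (T : T5 K b) (h : Step G S R ψ A Z) (hU : R ∪ A = S) (ih : IH K b S.card)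
    (hlt : (A.disjSum Z).card < S.card) (hT : Tgt K b (con G R ψ) (A.disjSum Z))
    (hRn : R.Nonempty)
    (hY : ∀ P ⊆ S, P ≠ S → K + 1 ≤ P.card → 2 < Yy G K b P) :
    A.card + Z.card = K + 1 ∨ ∃ T ⊆ A, T.card = K ∧ Clq G T ∧
      ∃ t0, ∀ t ∈ T, t ≠ t0 → dg (con G R ψ) (A.disjSum Z) (Sum.inl t) = K := by
  have ih' : IH K b ((A.disjSum Z).card + 1) := by
    intro V' G' S' h1 h2
    exact ih V' G' S' h1 (by omega)
  have hZs : (∅ : Finset V).disjSum Z ⊆ A.disjSum Z := by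
    intro x hx
    rcases x with x | i
    · exact absurd (inl_mem_disjSum.1 hx) (notMem_empty x)
    · exact inr_mem_disjSum.2 (inr_mem_disjSum.1 hx)
  have hZn : ((∅ : Finset V).disjSum Z).Nonempty := by
    obtain ⟨i, hi⟩ := h.neZ
    exact ⟨Sum.inr i, inr_mem_disjSum.2 hi⟩
  rcases fr_abs' T ih' hT hZs (clq_classes G R ψ Z) hZn (by
    intro P hP hPY
    by_contra hcon
    push Not at hcon
    obtain ⟨A', Z', rfl⟩ := eq_disjSum P
    have hZ' : Z' = ∅ := by
      rw [← not_nonempty_iff_eq_empty]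
      rintro ⟨i, hi⟩
      exact hcon (Sum.inr i) (inr_mem_disjSum.2 hi) (inr_mem_disjSum.2
          (inr_mem_disjSum.1 (hP.sub (inr_mem_disjSum.2 hi))))
    subst hZ'
    have h2 := (small_card T ih' hT hP hPY).2
    rw [card_disjSum, card_empty, add_zero] at h2
    rw [Yy_con_empty] at hPY
    have hA' : A' ⊆ A := fun v hv => inl_mem_disjSum.1 (hP.sub (inl_mem_disjSum.2 hv))
    have h3 : A' ≠ S := by
      rintro rfl
      obtain ⟨r, hr⟩ := hRn
      exact (mem_sdiff.1 (h.hA (hA' (h.sub hr)))).2 hr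
    have h4 := hY A' (hA'.trans h.subA) h3 h2
    linarith) with h1 | ⟨T', hT's, hT'Z, hT'c, hT'q, t0, hT'd⟩
  · left
    rwa [card_disjSum] at h1
  · right
    obtain ⟨A', Z', rfl⟩ := eq_disjSum T'
    have hZ' : Z' = ∅ := by
      rw [← not_nonempty_iff_eq_empty]
      rintro ⟨i, hi⟩
      exact hT'Z (Sum.inr i) (inr_mem_disjSum.2 hi)
        (inr_mem_disjSum.2 (inr_mem_disjSum.1 (hT's (inr_mem_disjSum.2 hi))))
    subst hZ'
    rw [card_disjSum, card_empty, add_zero] at hT'c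
    have hA' : A' ⊆ A := fun v hv => inl_mem_disjSum.1 (hT's (inl_mem_disjSum.2 hv))
    refine ⟨A', hA', hT'c, clq_inl hT'q, ?_⟩
    rcases t0 with t0 | i
    · exact ⟨t0, fun t ht htt => hT'd (Sum.inl t) (inl_mem_disjSum.2 ht)
        (fun e => htt (Sum.inl_injective e))⟩
    · have hK := T.hK
      obtain ⟨t1, -⟩ := card_pos.1 (show 0 < A'.card by omega)
      exact ⟨t1, fun t ht _ => hT'd (Sum.inl t) (inl_mem_disjSum.2 ht) (by simp)⟩

/-- degrees in `S` and in the contraction -/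
theorem Step.dg_eq (h : Step G S R ψ A Z) (hU : R ∪ A = S) {v : V} (hv : v ∈ A) :
    (dg G S v : ℤ) = dg (con G R ψ) (A.disjSum Z) (Sum.inl v) +
      ((dg G R v : ℤ) - (hit G R ψ v ∩ Z).card) := by
  have h1 := Pool.Agent.O2.dg_union (G := G) h.disj v
  rw [hU] at h1
  rw [h1, dg_Q]
  push_cast
  ring

/-- a loss of at most one concerns one vertex -/
theorem gain_le_one (hA : A.Nonempty) (hg : gain G R ψ A Z ≤ 1) :
    ∃ v0, (∀ v ∈ A, v ≠ v0 → (dg G R v : ℤ) = (hit G R ψ v ∩ Z).card) ∧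
      ∀ v ∈ A, (dg G R v : ℤ) ≤ (hit G R ψ v ∩ Z).card + 1 := by
  have hnn : ∀ v ∈ A, 0 ≤ (dg G R v : ℤ) - (hit G R ψ v ∩ Z).card :=
    fun v _ => gain_term G R ψ Z v
  have hle : ∀ v ∈ A, (dg G R v : ℤ) - (hit G R ψ v ∩ Z).card ≤ 1 := by
    intro v hv
    exact (single_le_sum hnn hv).trans hg
  by_cases h0 : ∃ v0 ∈ A, (dg G R v0 : ℤ) ≠ (hit G R ψ v0 ∩ Z).card
  · obtain ⟨v0, hv0, hne⟩ := h0
    refine ⟨v0, ?_, fun v hv => by linarith [hle v hv]⟩
    intro v hv hvv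
    have h1 := hnn v0 hv0
    have h2 : 1 ≤ (dg G R v0 : ℤ) - (hit G R ψ v0 ∩ Z).card := by
      rcases lt_or_eq_of_le h1 with h3 | h3
      · exact h3
      · exact absurd (by linarith) hne
    have h3 : ({v0, v} : Finset V) ⊆ A := by
      intro y hy
      rcases mem_insert.1 hy with rfl | hy
      · exact hv0
      · rw [mem_singleton.1 hy]; exact hv
    have h4 := sum_le_sum_of_subset_of_nonneg h3 (f := fun v =>
      (dg G R v : ℤ) - (hit G R ψ v ∩ Z).card) (fun y hy _ => hnn y hy)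
    rw [sum_pair hvv.symm] at h4
    unfold gain at hg
    have h5 := hnn v hv
    linarith
  · push Not at h0
    obtain ⟨a, -⟩ := hA
    exact ⟨a, fun v hv _ => h0 v hv, fun v hv => by linarith [hle v hv]⟩

/-- if the contraction is a clique, all vertices of `A` hit all classes -/
theorem hit_all (hq : Clq (con G R ψ) (A.disjSum Z)) {v : V} (hv : v ∈ A) :
    hit G R ψ v ∩ Z = Z := by
  apply inter_eq_right.2
  intro i hi
  exact hq (Sum.inl v) (inl_mem_disjSum.2 hv) (Sum.inr i) (inr_mem_disjSum.2 hi) (by simp)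

/-- no loss: the vertices outside `R` form a clique of low vertices -/
theorem flex0 (T : T5 K b) (h : Step G S R ψ A Z) (hU : R ∪ A = S) (ih : IH K b S.card)
    (hlt : (A.disjSum Z).card < S.card) (hT : Tgt K b (con G R ψ) (A.disjSum Z))
    (hRn : R.Nonempty) (hY : ∀ P ⊆ S, P ≠ S → K + 1 ≤ P.card → 2 < Yy G K b P)
    (hE : ∀ T ⊆ S, Clq G T → T.card = K → 2 ≤ (T.filter fun t => dg G S t ≠ K).card)
    (hg : gain G R ψ A Z = 0) :
    A.card + Z.card = K + 1 ∧ Clq G A ∧ (∀ v ∈ A, dg G S v = K) ∧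
      (∀ v ∈ A, dg G R v = Z.card) ∧ (∀ v ∈ A, Z ⊆ hit G R ψ v) := by
  have hdeg : ∀ v ∈ A, dg G S v = dg (con G R ψ) (A.disjSum Z) (Sum.inl v) := by
    intro v hv
    rw [h.gain_zero_dg hg hv, hU]
  rcases flex T h hU ih hlt hT hRn hY with h1 | ⟨T', hT's, hT'c, hT'q, t0, hT'd⟩
  · have hc : (A.disjSum Z).card = K + 1 := by rw [card_disjSum]; exact h1
    have hq := clq_of_card hT.cr hc
    have hcA : Clq G A := by
      intro a ha c hc hac
      exact hq (Sum.inl a) (inl_mem_disjSum.2 ha) (Sum.inl c) (inl_mem_disjSum.2 hc)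
        (fun e => hac (Sum.inl_injective e))
    refine ⟨h1, hcA, ?_, ?_, ?_⟩
    · intro v hv
      have h2 := dg_of_clq hq (inl_mem_disjSum.2 hv)
      rw [hdeg v hv]
      omega
    · intro v hv
      rw [← gain_zero hg hv, hit_all hq hv]
    · intro v hv i hi
      have h2 : i ∈ hit G R ψ v ∩ Z := by rw [hit_all hq hv]; exact hi
      exact (mem_inter.1 h2).1
  · exfalso
    have h2 := hE T' (hT's.trans h.subA) hT'q hT'c
    have h3 : (T'.filter fun t => dg G S t ≠ K) ⊆ {t0} := by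
      intro t ht
      obtain ⟨ht1, ht2⟩ := mem_filter.1 ht
      by_contra h4
      exact ht2 ((hdeg t (hT's ht1)).trans (hT'd t ht1 (fun e => h4 (mem_singleton.2 e))))
    have h4 := card_le_card h3
    rw [card_singleton] at h4
    omega

/-- a loss of at most one -/
theorem flex1 (T : T5 K b) (h : Step G S R ψ A Z) (hU : R ∪ A = S) (ih : IH K b S.card)
    (hlt : (A.disjSum Z).card < S.card) (hT : Tgt K b (con G R ψ) (A.disjSum Z))
    (hRn : R.Nonempty) (hY : ∀ P ⊆ S, P ≠ S → K + 1 ≤ P.card → 2 < Yy G K b P)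
    (hg : gain G R ψ A Z ≤ 1) :
    (A.card + Z.card = K + 1 ∧ Clq G A ∧ (∃ v0, ∀ v ∈ A, v ≠ v0 → dg G S v = K) ∧
      (∀ v ∈ A, dg G S v ≤ K + 1) ∧ (∀ v ∈ A, Z ⊆ hit G R ψ v)) ∨
    ∃ T ⊆ A, T.card = K ∧ Clq G T ∧ ∃ t0 v0, ∀ t ∈ T, t ≠ t0 → t ≠ v0 → dg G S t = K := by
  obtain ⟨v0, hv1, hv2⟩ := gain_le_one h.neA hg
  have hdeg : ∀ v ∈ A, v ≠ v0 → dg G S v = dg (con G R ψ) (A.disjSum Z) (Sum.inl v) := by
    intro v hv hvv
    have h1 := Step.dg_eq h hU hv
    have h2 := hv1 v hv hvv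
    have h3 : (dg G S v : ℤ) = dg (con G R ψ) (A.disjSum Z) (Sum.inl v) := by linarith
    exact_mod_cast h3
  have hdeg' : ∀ v ∈ A, dg G S v ≤ dg (con G R ψ) (A.disjSum Z) (Sum.inl v) + 1 := by
    intro v hv
    have h1 := Step.dg_eq h hU hv
    have h2 := hv2 v hv
    have h3 : (dg G S v : ℤ) ≤ dg (con G R ψ) (A.disjSum Z) (Sum.inl v) + 1 := by linarith
    exact_mod_cast h3
  rcases flex T h hU ih hlt hT hRn hY with h1 | ⟨T', hT's, hT'c, hT'q, t0, hT'd⟩
  · left
    have hc : (A.disjSum Z).card = K + 1 := by rw [card_disjSum]; exact h1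
    have hq := clq_of_card hT.cr hc
    have hcA : Clq G A := by
      intro a ha c hc hac
      exact hq (Sum.inl a) (inl_mem_disjSum.2 ha) (Sum.inl c) (inl_mem_disjSum.2 hc)
        (fun e => hac (Sum.inl_injective e))
    have hdK : ∀ v ∈ A, dg (con G R ψ) (A.disjSum Z) (Sum.inl v) = K := by
      intro v hv
      have h2 := dg_of_clq hq (inl_mem_disjSum.2 hv)
      omega
    refine ⟨h1, hcA, ⟨v0, fun v hv hvv => by rw [hdeg v hv hvv, hdK v hv]⟩, ?_, ?_⟩
    · intro v hv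
      have h2 := hdeg' v hv
      rw [hdK v hv] at h2
      exact h2
    · intro v hv i hi
      have h2 : i ∈ hit G R ψ v ∩ Z := by rw [hit_all hq hv]; exact hi
      exact (mem_inter.1 h2).1
  · right
    exact ⟨T', hT's, hT'c, hT'q, t0, v0, fun t ht h2 h3 =>
      (hdeg t (hT's ht) h3).trans (hT'd t ht h2)⟩

end

end Pool.Agent.OW63
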