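import Pool.Agent.Lib_helper25.OW.T3
import Pool.Agent.Lib_helper63.OW.E3

/-!
# The flex reduction

A tight critical set of residue 0 in which all small sets meet a clique `Z` is a clique, or contains
a `K`-clique outside `Z` with at most one vertex whose degree is not `K`.
-/

set_option autoImplicit false
set_option linter.unusedSectionVars false
set_option linter.unusedVariables false

open scoped Classical
open Finset
open Pool.Agent.O2 (PC Cb CrOn pr ms dg nd addE)
open Pool.Agent.O3 (con hit Clq Non)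
open Pool.Agent.OW
open Pool.Agent.OW.S5

namespace Pool.Agent.OW63

variable {V : Type}

/-- Lemma T, with the maximal small set -/
theorem lemmaT_max {K : ℕ} {b : ℕ → ℤ} (T : T5 K b) {G : SimpleGraph V} {H : Finset V}
    (ih : IH K b (H.card + 1)) (hH : Tgt K b G H) {z : V} (hz : z ∈ H)
    (hsm : ∀ R, PS G H R → Yy G K b R ≤ 2 → z ∈ R)
    (hno : ∃ R, PS G H R ∧ Yy G K b R ≤ 2) :
    ∃ R, PS G H R ∧ Yy G K b R ≤ 2 ∧ (H \ R).card = K ∧ Clq G (H \ R) ∧
      ∀ t ∈ H \ R, dg G H t = K := by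
  have hK4 := T.hK
  have hK4' : (4 : ℤ) ≤ K := by exact_mod_cast hK4
  have hK : 0 < K := by omega
  obtain ⟨R₀, hR₀, hR₀Y⟩ := hno
  have hne : (H.powerset.filter fun R => PS G H R ∧ Yy G K b R ≤ 2).Nonempty :=
    ⟨R₀, mem_filter.2 ⟨mem_powerset.2 hR₀.sub, hR₀, hR₀Y⟩⟩
  obtain ⟨R, hR, hmax⟩ := exists_max_image _ card hne
  obtain ⟨-, hRps, hRY⟩ := mem_filter.1 hR
  have hzR := hsm R hRps hRY
  obtain ⟨ψ, hψ, hni⟩ := hRps.noninj hK hH.cr
  obtain ⟨hRd, hRY2, c, hT', hg, hlt⟩ := hH.eq2 T ih hRps hRY hψ hni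
  have ih' : IH K b (((H \ R).disjSum {c}).card + 1) := by
    intro V' G' S' h1 h2
    exact ih V' G' S' h1 (by omega)
  have hRc := card_pos.2 hRps.nonempty
  have hcc : ∀ A : Finset V, (A.disjSum ({c} : Finset (Fin K))).card = A.card + 1 := by
    intro A
    rw [card_disjSum, card_singleton]
  have hno' : ∀ R', PS (con G R ψ) ((H \ R).disjSum {c}) R' →
      2 < Yy (con G R ψ) K b R' := by
    intro R' hR'
    by_contra hle
    rw [not_lt] at hle
    obtain ⟨A, Z, rfl⟩ := eq_disjSum R'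
    have hA : A ⊆ H \ R := fun v hv => inl_mem_disjSum.1 (hR'.sub (inl_mem_disjSum.2 hv))
    have hZ : Z ⊆ {c} := fun v hv => inr_mem_disjSum.1 (hR'.sub (inr_mem_disjSum.2 hv))
    have hzA : z ∉ A := fun h => (mem_sdiff.1 (hA h)).2 hzR
    rcases subset_singleton_iff.1 hZ with h0 | h0
    · subst h0
      rw [Yy_con_empty] at hle
      refine hzA (hsm A ⟨hA.trans sdiff_subset, fun e => hzA (e ▸ hz), ?_⟩ hle)
      obtain ⟨p, hp, q, hq, hpq, hna⟩ := hR'.non
      obtain ⟨p', rfl⟩ | ⟨i, rfl⟩ : (∃ p', p = Sum.inl p') ∨ ∃ i, p = Sum.inr i := by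
        rcases p with p' | i
        · exact Or.inl ⟨p', rfl⟩
        · exact Or.inr ⟨i, rfl⟩
      · obtain ⟨q', rfl⟩ | ⟨j, rfl⟩ : (∃ q', q = Sum.inl q') ∨ ∃ i, q = Sum.inr i := by
          rcases q with q' | i
          · exact Or.inl ⟨q', rfl⟩
          · exact Or.inr ⟨i, rfl⟩
        · exact ⟨p', inl_mem_disjSum.1 hp, q', inl_mem_disjSum.1 hq,
            fun e => hpq (by rw [e]), hna⟩
        · exact absurd (inr_mem_disjSum.1 hq) (notMem_empty j)
      · exact absurd (inr_mem_disjSum.1 hp) (notMem_empty i)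
    · subst h0
      -- the lifted set
      have hgA : gain G R ψ A {c} = 0 := by
        unfold gain
        apply sum_eq_zero
        intro v hv
        have h1 := gain_zero hg (hA hv)
        rw [h1]
        ring
      have hdis : Disjoint R A := by
        rw [disjoint_left]
        intro v hv hv'
        exact (mem_sdiff.1 (hA hv')).2 hv
      have hcu : (R ∪ A).card = R.card + A.card := card_union_of_disjoint hdis
      have hAd : K ∣ A.card := by
        have h1 := (hT'.gap T ih' hR').2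
        rw [hcc, Nat.add_sub_cancel] at h1
        by_contra h2
        have := h1 h2
        linarith
      have hA0 : A.Nonempty := by
        rw [nonempty_iff_ne_empty]
        rintro rfl
        obtain ⟨p, hp, q, hq, hpq, hna⟩ := hR'.non
        rcases p with p' | i
        · exact absurd (inl_mem_disjSum.1 hp) (notMem_empty p')
        · rcases q with q' | j
          · exact absurd (inl_mem_disjSum.1 hq) (notMem_empty q')
          · have h1 := mem_singleton.1 (inr_mem_disjSum.1 hp)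
            have h2 := mem_singleton.1 (inr_mem_disjSum.1 hq)
            exact hpq (by rw [h1, h2])
      have hU : PS G H (R ∪ A) := by
        apply union_ps hRps hA
        intro e
        apply hR'.ne
        rw [union_eq hRps.sub hA e]
      have hdf := df_ext (K := K) G hdis ψ {c}
      have hY : Yy G K b (R ∪ A) ≤ 2 := by
        have h1 := T.mul (R.card - 1) A.card hRd hAd
        unfold Yy at hRY2 hle ⊢
        rw [hcc, Nat.add_sub_cancel] at hle
        have h2 : (R ∪ A).card - 1 = R.card - 1 + A.card := by omega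
        rw [h2, h1, hdf, hgA, card_singleton]
        push_cast
        linarith
      have h1 := hmax (R ∪ A) (mem_filter.2 ⟨mem_powerset.2 hU.sub, hU, hY⟩)
      have h2 := card_pos.2 hA0
      omega
  have hc' := tight_clique T ih' hT' hno'
  have hq' := clq_of_card hT'.cr hc'
  rw [hcc] at hc'
  have hQ : Clq G (H \ R) := by
    intro a ha d hd had
    exact hq' (Sum.inl a) (inl_mem_disjSum.2 ha) (Sum.inl d) (inl_mem_disjSum.2 hd)
      (fun e => had (Sum.inl_injective e))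
  refine ⟨R, hRps, hRY, by omega, hQ, ?_⟩
  intro t ht
  have h1 : c ∈ hit G R ψ t := hq' (Sum.inl t) (inl_mem_disjSum.2 ht) (Sum.inr c)
    (inr_mem_disjSum.2 (mem_singleton_self c)) (by simp)
  have h2 := gain_zero hg ht
  have h3 : (hit G R ψ t ∩ {c}).card = 1 := by
    rw [inter_singleton_of_mem h1, card_singleton]
  have h4 := dg_of_clq hQ ht
  have h5 : Disjoint R (H \ R) := disjoint_sdiff
  have h6 := Pool.Agent.O2.dg_union (G := G) h5 t
  rw [union_sdiff_of_subset hRps.sub] at h6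
  omega

/-- the size of a small set -/
theorem small_card {K : ℕ} {b : ℕ → ℤ} (T : T5 K b) {G : SimpleGraph V} {H P : Finset V}
    (ih : IH K b (H.card + 1)) (hH : Tgt K b G H) (hP : PS G H P) (hY : Yy G K b P ≤ 2) :
    K ∣ P.card - 1 ∧ K + 1 ≤ P.card := by
  have hK4 := T.hK
  have hK4' : (4 : ℤ) ≤ K := by exact_mod_cast hK4
  have h1 := (hH.gap T ih hP).2
  have h2 : K ∣ P.card - 1 := by
    by_contra h3
    have := h1 h3
    linarith
  refine ⟨h2, ?_⟩
  obtain ⟨a, ha, c, hc, hac, -⟩ := hP.non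
  have h3 : 2 ≤ P.card := by
    have h4 : ({a, c} : Finset V) ⊆ P := by
      intro v hv
      rcases mem_insert.1 hv with rfl | hv
      · exact ha
      · rw [mem_singleton.1 hv]; exact hc
    have h5 := card_le_card h4
    rwa [card_pair hac] at h5
  have h4 := Nat.le_of_dvd (by omega) h2
  omega

/-- all colourings of a small set: one colour on the boundary -/
theorem small_bd {K : ℕ} {b : ℕ → ℤ} (T : T5 K b) {G : SimpleGraph V} {H P : Finset V}
    (ih : IH K b (H.card + 1)) (hH : Tgt K b G H) (hP : PS G H P) (hY : Yy G K b P ≤ 2)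
    {φ : V → Fin K} (hφ : PC G P φ) :
    ∃ c, (∀ v ∈ H \ P, ∀ y ∈ P, G.Adj v y → φ y = c) ∧
      ∀ v ∈ H \ P, ∀ y ∈ P, ∀ y' ∈ P, G.Adj v y → G.Adj v y' → y = y' := by
  obtain ⟨h1, h2⟩ := small_card T ih hH hP hY
  have hni : ∃ a ∈ P, ∃ c ∈ P, a ≠ c ∧ φ a = φ c := by
    have h3 : (univ : Finset (Fin K)).card < P.card := by
      rw [card_univ, Fintype.card_fin]
      omega
    obtain ⟨a, ha, c, hc, hac, he⟩ :=
      exists_ne_map_eq_of_card_lt_of_maps_to h3 (f := φ) (fun x _ => mem_coe.2 (mem_univ _))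
    exact ⟨a, ha, c, hc, hac, he⟩
  obtain ⟨-, -, c, -, hg, -⟩ := hH.eq2 T ih hP hY hφ hni
  refine ⟨c, ?_, ?_⟩
  · intro v hv y hy hvy
    exact mem_singleton.1 ((gain_zero_rainbow hg hv).1 y hy hvy)
  · intro v hv y hy y' hy' hvy hvy'
    apply (gain_zero_rainbow hg hv).2 y hy y' hy' hvy hvy'
    rw [mem_singleton.1 ((gain_zero_rainbow hg hv).1 y hy hvy),
      mem_singleton.1 ((gain_zero_rainbow hg hv).1 y' hy' hvy')]

/-- a small set which contains a vertex of the clique `Z`, but not all of them -/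
theorem fr_minimal {K : ℕ} {b : ℕ → ℤ} (T : T5 K b) {G : SimpleGraph V} {H Zf P : Finset V}
    (ih : IH K b (H.card + 1)) (hH : Tgt K b G H) (hZ : Zf ⊆ H) (hZc : Clq G Zf)
    (hsm : ∀ R, PS G H R → Yy G K b R ≤ 2 → (R ∩ Zf).Nonempty)
    (hP : PS G H P) (hY : Yy G K b P ≤ 2) (hZP : ¬ Zf ⊆ P) :
    ∃ T ⊆ H \ Zf, T.card = K ∧ Clq G T ∧ ∃ t0, ∀ t ∈ T, t ≠ t0 → dg G H t = K := by
  have hK4 := T.hK
  have hK : 0 < K := by omega
  -- a minimal small set
  have hne : (P.powerset.filter fun R => PS G H R ∧ Yy G K b R ≤ 2).Nonempty :=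
    ⟨P, mem_filter.2 ⟨mem_powerset.2 (Subset.refl _), hP, hY⟩⟩
  obtain ⟨P0, hP0, hmin⟩ := exists_min_image _ card hne
  obtain ⟨hP0P, hP0s, hP0Y⟩ := mem_filter.1 hP0
  rw [mem_powerset] at hP0P
  have hmin' : ∀ X, X ⊆ P0 → PS G H X → Yy G K b X ≤ 2 → X = P0 := by
    intro X hX h1 h2
    have h3 := hmin X (mem_filter.2 ⟨mem_powerset.2 (hX.trans hP0P), h1, h2⟩)
    exact eq_of_subset_of_card_le hX h3
  obtain ⟨z0, hz0⟩ := hsm P0 hP0s hP0Y
  obtain ⟨hz0P, hz0Z⟩ := mem_inter.1 hz0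
  obtain ⟨z1, hz1Z, hz1P⟩ := not_subset.1 hZP
  have hz1P0 : z1 ∉ P0 := fun h => hz1P (hP0P h)
  have hz1H : z1 ∈ H \ P0 := mem_sdiff.2 ⟨hZ hz1Z, hz1P0⟩
  have hz10 : z1 ≠ z0 := by
    rintro rfl
    exact hz1P0 hz0P
  have hadj : G.Adj z1 z0 := hZc z1 hz1Z z0 hz0Z hz10
  obtain ⟨ψ, hψ⟩ := (Pool.Agent.O2.cb_fin hK).1 (hP0s.cb hH.cr)
  obtain ⟨c, hc1, hc2⟩ := small_bd T ih hH hP0s hP0Y hψ
  obtain ⟨hdvd, hcard⟩ := small_card T ih hH hP0s hP0Y
  -- only one vertex of Zf
  have hone : ∀ z ∈ P0, z ∈ Zf → z = z0 := by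
    intro z hz hzZ
    have h1 : z1 ≠ z := by
      rintro rfl
      exact hz1P0 hz
    exact hc2 z1 hz1H z hz z0 hz0P (hZc z1 hz1Z z hzZ h1) hadj
  -- a second boundary vertex
  obtain ⟨q, hq, hqz, t, ht, hqt⟩ : ∃ q ∈ P0, q ≠ z0 ∧ ∃ t ∈ H \ P0, G.Adj q t := by
    by_contra hcon
    push Not at hcon
    have h1 := rooted_cut hH.cr hP0s.sub (by omega) hz0P hψ (fun r hr hrz ⟨t, ht, hrt⟩ =>
      absurd hrt (hcon r hr hrz t ht))
    have h2 : pr G (P0.erase z0) (H \ P0) = 0 := by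
      rw [Pool.Agent.O2.pr_sum]
      apply sum_eq_zero
      intro r hr
      obtain ⟨hrz, hr'⟩ := mem_erase.1 hr
      apply card_eq_zero.2
      rw [filter_eq_empty_iff]
      intro t ht hrt
      exact hcon r hr' hrz t ht hrt
    omega
  have hcz : ∀ φ : V → Fin K, PC G P0 φ → φ q = φ z0 := by
    intro φ hφ
    obtain ⟨c', h1, -⟩ := small_bd T ih hH hP0s hP0Y hφ
    rw [h1 t ht q hq hqt.symm, h1 z1 hz1H z0 hz0P hadj]
  have hnad : ¬ G.Adj z0 q := by
    intro h
    exact hψ z0 hz0P q hq h (hcz ψ hψ).symm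
  -- the tight graph with the new edge
  set F : Finset (V × V) := {(z0, q)} with hF
  have hnc : ¬ Cb (addE G F) P0 K := by
    intro h
    obtain ⟨φ, hφ⟩ := (Pool.Agent.O2.cb_fin hK).1 h
    have h1 : PC G P0 φ := fun a ha b hb hab => hφ a ha b hb (Or.inl hab)
    exact hφ z0 hz0P q hq (Or.inr ⟨hqz.symm, Or.inl (mem_singleton_self _)⟩) (hcz φ h1).symm
  have hP0lt : P0.card < H.card := card_lt_card (hP0s.sub.ssubset_of_ne hP0s.ne)
  obtain ⟨X, hX, hXcr, hXnon, hXc, hXY⟩ := Pool.Agent.OW.S5.addE_small ih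
    (show P0.card < H.card + 1 by omega) (hP0s.cb hH.cr) hnc
  have hFc : ∀ X : Finset V, ((F.filter fun p => p.1 ∈ X ∧ p.2 ∈ X).card : ℤ) ≤ 1 := by
    intro X
    have h1 : (F.filter fun p => p.1 ∈ X ∧ p.2 ∈ X).card ≤ F.card := card_filter_le _ _
    rw [hF, card_singleton] at h1
    exact_mod_cast h1
  have hXe : X = P0 := by
    apply hmin' X hX ⟨hX.trans hP0s.sub, ?_, hXnon⟩
    · have := hFc X
      linarith
    · intro h
      have := card_le_card hX
      rw [h] at this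
      omega
  subst hXe
  have hY0 : Yy G K b X = 2 := le_antisymm hP0Y (hH.gap T ih hP0s).1
  have hT1 : Tgt K b (addE G F) X := by
    refine ⟨hXcr, hdvd, ?_⟩
    have h1 := ih V (addE G F) X hXcr (by omega)
    have h2 := Pool.Agent.OW.S5.pr_addE G F X
    have h3 := hFc X
    have h4 : (pr (addE G F) X X : ℤ) ≤
        pr G X X + 2 * ((F.filter fun p => p.1 ∈ X ∧ p.2 ∈ X).card : ℤ) := by exact_mod_cast h2
    unfold Yy df at hY0
    unfold df at h1
    unfold Yy df
    linarith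
  have ih1 : IH K b (X.card + 1) := by
    intro V' G' S' h1 h2
    exact ih V' G' S' h1 (by omega)
  have heqG : ∀ a b : V, a ≠ z0 → b ≠ z0 → ((addE G F).Adj a b ↔ G.Adj a b) := by
    intro a b ha hb
    constructor
    · rintro (h | ⟨-, h | h⟩)
      · exact h
      · exact absurd (Prod.mk.inj (mem_singleton.1 h)).1 ha
      · exact absurd (Prod.mk.inj (mem_singleton.1 h)).1 hb
    · exact Or.inl
  obtain ⟨T1, hT1s, hT1c, hT1q, hT1d⟩ := lemmaT T ih1 hT1 hz0P (by
    intro R1 hR1 hR1Y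
    by_contra hz
    have h1 : ∀ a ∈ R1, a ≠ z0 := fun a ha h => hz (h ▸ ha)
    have h2 : Yy G K b R1 ≤ 2 := by
      have h3 : pr (addE G F) R1 R1 = pr G R1 R1 := by
        unfold pr
        congr 1
        apply filter_congr
        intro p hp
        obtain ⟨h4, h5⟩ := mem_product.1 hp
        exact heqG p.1 p.2 (h1 _ h4) (h1 _ h5)
      unfold Yy df at hR1Y ⊢
      rwa [h3] at hR1Y
    have h3 : Non G R1 := by
      obtain ⟨a, ha, d, hd, had, hn⟩ := hR1.non
      exact ⟨a, ha, d, hd, had, fun h => hn (Or.inl h)⟩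
    have h4 : R1 ≠ H := by
      rintro rfl
      have := card_le_card hR1.sub
      omega
    exact hR1.ne (hmin' R1 hR1.sub ⟨hR1.sub.trans hP0s.sub, h4, h3⟩ h2))
  have hT1z : ∀ t ∈ T1, t ≠ z0 := fun t ht => (mem_erase.1 (hT1s ht)).1
  have hT1X : ∀ t ∈ T1, t ∈ X := fun t ht => (mem_erase.1 (hT1s ht)).2
  have hClq : Clq G T1 := by
    intro a ha d hd had
    exact (heqG a d (hT1z a ha) (hT1z d hd)).1 (hT1q a ha d hd had)
  -- the exceptional vertex
  obtain ⟨t0, ht0⟩ : ∃ t0, ∀ t ∈ T1, t ≠ t0 → ∀ v ∈ H \ X, ¬ G.Adj v t := by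
    by_cases h1 : ∃ t0 ∈ T1, ∃ v ∈ H \ X, G.Adj v t0
    · obtain ⟨t0, ht0, v0, hv0, hvt0⟩ := h1
      refine ⟨t0, fun t ht htt v hv hvt => ?_⟩
      exact hψ t (hT1X t ht) t0 (hT1X t0 ht0) (hClq t ht t0 ht0 htt)
        (by rw [hc1 v hv t (hT1X t ht) hvt, hc1 v0 hv0 t0 (hT1X t0 ht0) hvt0])
    · push Not at h1
      exact ⟨z0, fun t ht _ v hv => h1 t ht v hv⟩
  refine ⟨T1, ?_, hT1c, hClq, t0, ?_⟩
  · intro v hv
    refine mem_sdiff.2 ⟨hP0s.sub (hT1X v hv), fun h => ?_⟩
    exact hT1z v hv (hone v (hT1X v hv) h)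
  · intro v hv hvt
    have h1 : v ≠ q := by
      rintro rfl
      exact ht0 v hv hvt t ht hqt.symm
    have h2 : dg (addE G F) X v = dg G X v := by
      unfold dg
      congr 1
      apply filter_congr
      intro y hy
      constructor
      · rintro (h | ⟨-, h | h⟩)
        · exact h
        · exact absurd (Prod.mk.inj (mem_singleton.1 h)).1 (hT1z v hv)
        · exact absurd (Prod.mk.inj (mem_singleton.1 h)).2 h1
      · exact Or.inl
    have h3 : dg G (H \ X) v = 0 := by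
      apply card_eq_zero.2
      rw [filter_eq_empty_iff]
      intro y hy hvy
      exact ht0 v hv hvt y hy hvy.symm
    have h4 : Disjoint X (H \ X) := disjoint_sdiff
    have h5 := Pool.Agent.O2.dg_union (G := G) h4 v
    rw [union_sdiff_of_subset hP0s.sub] at h5
    have h6 := hT1d v hv
    omega

/-- the flex reduction for a clique `Zf` that meets all small sets -/
theorem fr_abs {K : ℕ} {b : ℕ → ℤ} (T : T5 K b) {G : SimpleGraph V} {H Zf : Finset V}
    (ih : IH K b (H.card + 1)) (hH : Tgt K b G H) (hZ : Zf ⊆ H) (hZc : Clq G Zf)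
    (hZn : Zf.Nonempty)
    (hsm : ∀ R, PS G H R → Yy G K b R ≤ 2 → (R ∩ Zf).Nonempty) :
    H.card = K + 1 ∨
    ∃ T ⊆ H \ Zf, T.card = K ∧ Clq G T ∧ ∃ t0, ∀ t ∈ T, t ≠ t0 → dg G H t = K := by
  by_cases hno : ∀ R, PS G H R → 2 < Yy G K b R
  · exact Or.inl (tight_clique T ih hH hno)
  right
  push Not at hno
  by_cases hA : ∃ P, PS G H P ∧ Yy G K b P ≤ 2 ∧ ¬ Zf ⊆ P
  · obtain ⟨P, hP, hY, hZP⟩ := hA
    exact fr_minimal T ih hH hZ hZc hsm hP hY hZP
  · push Not at hA
    obtain ⟨z, hz⟩ := hZn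
    obtain ⟨R, hR, hRY, hRc, hRq, hRd⟩ := lemmaT_max T ih hH (hZ hz)
      (fun R hR hY => hA R hR hY hz) hno
    refine ⟨H \ R, ?_, hRc, hRq, z, fun t ht _ => hRd t ht⟩
    intro v hv
    refine mem_sdiff.2 ⟨(mem_sdiff.1 hv).1, fun h => ?_⟩
    exact (mem_sdiff.1 hv).2 (hA R hR hRY h)

end Pool.Agent.OW63
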