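import Pool.Agent.Lib_helper53.OW.Ext2

/-!
# Pair sets

Two non-adjacent vertices `x, y` which get different colours in all colourings of `T`: merging them
gives a critical graph on a subset, the pair set `W`.
-/

set_option autoImplicit false
set_option linter.unusedSectionVars false
set_option linter.unusedVariables false

open scoped Classical
open Finset
open Pool.Agent.O2 (PC Cb CrOn pr ms dg nd addE cb_mono cb_sub cb_fin cb_of_pc pc_sub
  exists_crOn pr_sum pr_sum' pr_symm pr_mono dg_mono dg_union)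
open Pool.Agent.O3 (con hit Clq)

namespace Pool.Agent.OW

variable {V : Type}

/-- the neighbours of a low vertex have different colours -/
theorem low_rainbow {K : ℕ} {G : SimpleGraph V} {S : Finset V} (hS : CrOn G S K) {u : V}
    (hu : u ∈ S) (hd : dg G S u ≤ K) {φ : V → Fin K} (hφ : PC G (S.erase u) φ) :
    ∀ x ∈ S, ∀ y ∈ S, G.Adj u x → G.Adj u y → φ x = φ y → x = y := by
  have h1 : (S.filter fun y => G.Adj u y).image φ = univ := by
    apply eq_univ_of_forall
    intro i
    obtain ⟨y, hy, -, huy, hyi⟩ := hS.nbr_all hu hφ i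
    exact mem_image.2 ⟨y, mem_filter.2 ⟨hy, huy⟩, hyi⟩
  have h2 : ((S.filter fun y => G.Adj u y).image φ).card = (S.filter fun y => G.Adj u y).card := by
    apply le_antisymm card_image_le
    rw [h1, card_univ, Fintype.card_fin]
    exact hd
  intro x hx y hy hux huy hxy
  exact (card_image_iff.1 h2) (mem_coe.2 (mem_filter.2 ⟨hx, hux⟩))
    (mem_coe.2 (mem_filter.2 ⟨hy, huy⟩)) hxy

/-- existence of a pair set -/
theorem pair_exists {K : ℕ} {G : SimpleGraph V} {S T : Finset V} {x y : V} (hS : CrOn G S K)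
    (hK : 0 < K) (hT : T ⊆ S) (hTS : T ≠ S) (hx : x ∈ T) (hy : y ∈ T) (hne : x ≠ y)
    (hnad : ¬ G.Adj x y) (hcol : ∀ φ : V → Fin K, PC G T φ → φ x ≠ φ y) :
    ∃ W ⊆ T, Pair G S K x y W := by
  have h1 : ¬ Cb (mg G x y) (T.erase y) K := by
    intro h
    obtain ⟨φ, hφ⟩ := (cb_fin hK).1 h
    apply hcol (fun v => if v = y then φ x else φ v)
    · intro a ha b hb hab
      by_cases h1 : a = y <;> by_cases h2 : b = y
      · rw [h1, h2] at hab
        exact absurd hab (G.irrefl)
      · simp only [h1, h2, if_true, if_false]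
        rw [h1] at hab
        have hbx : b ≠ x := by
          rintro rfl
          exact hnad hab.symm
        exact hφ x (mem_erase.2 ⟨hne, hx⟩) b (mem_erase.2 ⟨h2, hb⟩)
          ⟨hbx.symm, Or.inr (Or.inl ⟨rfl, hab⟩)⟩
      · simp only [h1, h2, if_true, if_false]
        rw [h2] at hab
        have hax : a ≠ x := by
          rintro rfl
          exact hnad hab
        exact (hφ x (mem_erase.2 ⟨hne, hx⟩) a (mem_erase.2 ⟨h1, ha⟩)
          ⟨hax.symm, Or.inr (Or.inl ⟨rfl, hab.symm⟩)⟩).symm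
      · simp only [h1, h2, if_false]
        exact hφ a (mem_erase.2 ⟨h1, ha⟩) b (mem_erase.2 ⟨h2, hb⟩) ⟨hab.ne, Or.inl hab⟩
    · simp only [hne, if_true, if_false]
  obtain ⟨W', hW', hcr⟩ := exists_crOn h1
  have hyW' : y ∉ W' := fun h => (mem_erase.1 (hW' h)).1 rfl
  have hxW' : x ∈ W' := by
    by_contra hx'
    apply hcr.1
    have h2 : W' ⊆ T := fun v hv => (mem_erase.1 (hW' hv)).2
    have h3 : Cb G W' K := by
      apply hS.sub (h2.trans hT)
      rintro rfl
      exact hTS (Subset.antisymm hT h2)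
    obtain ⟨φ, h4, h5⟩ := h3
    refine ⟨φ, h4, ?_⟩
    rintro a ha b hb ⟨-, hab | ⟨rfl, -⟩ | ⟨rfl, -⟩⟩
    · exact h5 a ha b hb hab
    · exact absurd ha hx'
    · exact absurd hb hx'
  refine ⟨insert y W', ?_, ?_⟩
  · intro v hv
    rcases mem_insert.1 hv with rfl | hv
    · exact hy
    · exact (mem_erase.1 (hW' hv)).2
  · refine ⟨?_, mem_insert_of_mem hxW', mem_insert_self _ _, hne, hnad, ?_⟩
    · intro v hv
      rcases mem_insert.1 hv with rfl | hv
      · exact hT hy
      · exact hT (mem_erase.1 (hW' hv)).2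
    · rw [erase_insert hyW']
      exact hcr

variable {K : ℕ} {G : SimpleGraph V} {S W : Finset V} {x y : V}

/-- the pair set of two non-adjacent neighbours of a low vertex -/
theorem pair_low (hS : CrOn G S K) (hK : 0 < K) {u : V} (hu : u ∈ S) (hd : dg G S u ≤ K)
    (hx : x ∈ S) (hy : y ∈ S) (hux : G.Adj u x) (huy : G.Adj u y) (hne : x ≠ y)
    (hnad : ¬ G.Adj x y) : ∃ W, W ⊆ S.erase u ∧ Pair G S K x y W := by
  obtain ⟨W, hW, hP⟩ := pair_exists hS hK (erase_subset u S)
    (fun h => notMem_erase u S (by rw [h]; exact hu)) (mem_erase.2 ⟨hux.ne', hx⟩)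
    (mem_erase.2 ⟨huy.ne', hy⟩) hne hnad
    (fun φ hφ e => hne (low_rainbow hS hu hd hφ x hx y hy hux huy e))
  exact ⟨W, hW, hP⟩

theorem Pair.card (hP : Pair G S K x y W) : (W.erase y).card + 1 = W.card :=
  card_erase_add_one hP.hy

theorem Pair.card_ge (hP : Pair G S K x y W) : K + 2 ≤ W.card := by
  have h1 := hP.cr.card_ge
  have h2 := hP.card
  omega

theorem Pair.hxe (hP : Pair G S K x y W) : x ∈ W.erase y := mem_erase.2 ⟨hP.ne, hP.hx⟩

/-- adjacency in the merged graph -/
theorem mg_adj_of_ne {a b : V} (ha : a ≠ x) (hb : b ≠ x) : (mg G x y).Adj a b ↔ G.Adj a b := by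
  constructor
  · rintro ⟨-, h | ⟨h, -⟩ | ⟨h, -⟩⟩
    · exact h
    · exact absurd h ha
    · exact absurd h hb
  · intro h
    exact ⟨h.ne, Or.inl h⟩

theorem mg_adj_x {b : V} (hb : b ≠ x) : (mg G x y).Adj x b ↔ G.Adj x b ∨ G.Adj y b := by
  constructor
  · rintro ⟨-, h | ⟨-, h⟩ | ⟨h, -⟩⟩
    · exact Or.inl h
    · exact Or.inr h
    · exact absurd h hb
  · rintro (h | h)
    · exact ⟨hb.symm, Or.inl h⟩
    · exact ⟨hb.symm, Or.inr (Or.inl ⟨rfl, h⟩)⟩

/-- the common neighbours of `x` and `y` in `W` -/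
noncomputable def cmn (G : SimpleGraph V) (W : Finset V) (x y : V) : Finset V :=
  W.filter fun z => G.Adj x z ∧ G.Adj y z

theorem dg_mg_x (hne : x ≠ y) (hnad : ¬ G.Adj x y) (W : Finset V) :
    dg (mg G x y) (W.erase y) x + (cmn G W x y).card = dg G W x + dg G W y := by
  have h1 : ((W.erase y).filter fun z => (mg G x y).Adj x z) =
      (W.filter fun z => G.Adj x z) ∪ (W.filter fun z => G.Adj y z) := by
    ext z
    simp only [mem_filter, mem_erase, mem_union]
    constructor
    · rintro ⟨⟨h1, h2⟩, h3⟩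
      have h4 : z ≠ x := h3.ne'
      rcases (mg_adj_x h4).1 h3 with h5 | h5
      · exact Or.inl ⟨h2, h5⟩
      · exact Or.inr ⟨h2, h5⟩
    · rintro (⟨h1, h2⟩ | ⟨h1, h2⟩)
      · refine ⟨⟨?_, h1⟩, (mg_adj_x h2.ne').2 (Or.inl h2)⟩
        rintro rfl
        exact hnad h2
      · refine ⟨⟨h2.ne', h1⟩, (mg_adj_x ?_).2 (Or.inr h2)⟩
        rintro rfl
        exact hnad h2.symm
  have h2 : cmn G W x y = (W.filter fun z => G.Adj x z) ∩ (W.filter fun z => G.Adj y z) := by
    ext z
    simp only [cmn, mem_filter, mem_inter]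
    tauto
  have h3 := card_union_add_card_inter (W.filter fun z => G.Adj x z) (W.filter fun z => G.Adj y z)
  unfold dg
  rw [h1, h2]
  exact h3

theorem dg_mg_ne {a : V} (ha : a ≠ x) (hay : a ≠ y) (hxW : x ∈ W) (hyW : y ∈ W) (hne : x ≠ y) :
    dg (mg G x y) (W.erase y) a + (if G.Adj x a ∧ G.Adj y a then 1 else 0) = dg G W a := by
  by_cases h1 : G.Adj y a
  · by_cases h2 : G.Adj x a
    · rw [if_pos ⟨h2, h1⟩]
      have h3 : ((W.erase y).filter fun z => (mg G x y).Adj a z) =
          (W.filter fun z => G.Adj a z).erase y := by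
        ext z
        simp only [mem_filter, mem_erase]
        constructor
        · rintro ⟨⟨h3, h4⟩, h5⟩
          refine ⟨h3, h4, ?_⟩
          by_cases hz : z = x
          · rw [hz]; exact h2.symm
          · exact (mg_adj_of_ne ha hz).1 h5
        · rintro ⟨h3, h4, h5⟩
          exact ⟨⟨h3, h4⟩, h5.ne, Or.inl h5⟩
      unfold dg
      rw [h3]
      exact card_erase_add_one (mem_filter.2 ⟨hyW, h1.symm⟩)
    · rw [if_neg (fun h => h2 h.1)]
      have h3 : ((W.erase y).filter fun z => (mg G x y).Adj a z) =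
          insert x ((W.filter fun z => G.Adj a z).erase y) := by
        ext z
        simp only [mem_filter, mem_erase, mem_insert]
        constructor
        · rintro ⟨⟨h3, h4⟩, h5⟩
          by_cases hz : z = x
          · exact Or.inl hz
          · exact Or.inr ⟨h3, h4, (mg_adj_of_ne ha hz).1 h5⟩
        · rintro (rfl | ⟨h3, h4, h5⟩)
          · exact ⟨⟨hne, hxW⟩, (mg_adj_x ha).2 (Or.inr h1) |>.symm⟩
          · exact ⟨⟨h3, h4⟩, h5.ne, Or.inl h5⟩
      have h4 : x ∉ (W.filter fun z => G.Adj a z).erase y := by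
        intro h5
        exact h2 (mem_filter.1 (mem_erase.1 h5).2).2.symm
      unfold dg
      rw [h3, card_insert_of_notMem h4, add_zero]
      exact card_erase_add_one (mem_filter.2 ⟨hyW, h1.symm⟩)
  · rw [if_neg (fun h => h1 h.2), add_zero]
    unfold dg
    congr 1
    ext z
    simp only [mem_filter, mem_erase]
    constructor
    · rintro ⟨⟨h3, h4⟩, h5⟩
      refine ⟨h4, ?_⟩
      by_cases hz : z = x
      · subst hz
        rcases (mg_adj_x ha).1 h5.symm with h6 | h6
        · exact h6.symm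
        · exact absurd h6 h1
      · exact (mg_adj_of_ne ha hz).1 h5
    · rintro ⟨h3, h4⟩
      refine ⟨⟨?_, h3⟩, h4.ne, Or.inl h4⟩
      rintro rfl
      exact h1 h4.symm

/-- the edges of a pair set -/
theorem Pair.pr_eq (hP : Pair G S K x y W) :
    pr G W W = pr (mg G x y) (W.erase y) (W.erase y) + 2 * (cmn G W x y).card := by
  have e1 : ∑ a ∈ W, dg G W a =
      dg G W y + (dg G W x + ∑ a ∈ (W.erase y).erase x, dg G W a) := by
    rw [add_sum_erase (W.erase y) _ hP.hxe, add_sum_erase W _ hP.hy]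
  have e2 : ∑ a ∈ W.erase y, dg (mg G x y) (W.erase y) a =
      dg (mg G x y) (W.erase y) x +
        ∑ a ∈ (W.erase y).erase x, dg (mg G x y) (W.erase y) a := by
    rw [add_sum_erase (W.erase y) _ hP.hxe]
  have e3 : ∑ a ∈ (W.erase y).erase x, dg G W a =
      ∑ a ∈ (W.erase y).erase x, dg (mg G x y) (W.erase y) a +
        ∑ a ∈ (W.erase y).erase x, (if G.Adj x a ∧ G.Adj y a then 1 else 0) := by
    rw [← sum_add_distrib]
    apply sum_congr rfl
    intro a ha
    obtain ⟨h1, h2⟩ := mem_erase.1 ha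
    obtain ⟨h3, h4⟩ := mem_erase.1 h2
    exact (dg_mg_ne h1 h3 hP.hx hP.hy hP.ne).symm
  have e4 : ∑ a ∈ (W.erase y).erase x, (if G.Adj x a ∧ G.Adj y a then 1 else 0) =
      (cmn G W x y).card := by
    rw [← card_filter]
    congr 1
    ext z
    simp only [cmn, mem_filter, mem_erase]
    constructor
    · rintro ⟨⟨-, -, h1⟩, h2⟩
      exact ⟨h1, h2⟩
    · rintro ⟨h1, h2, h3⟩
      exact ⟨⟨h2.ne', h3.ne', h1⟩, h2, h3⟩
  have e5 := dg_mg_x hP.ne hP.nad W
  rw [pr_sum, pr_sum, e1, e2, e3, e4]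
  omega

/-- the deficiency of a pair set -/
theorem Pair.df_eq (hP : Pair G S K x y W) :
    df G K W = df (mg G x y) K (W.erase y) + ((K : ℤ) + 1) - 2 * (cmn G W x y).card := by
  have h1 := hP.pr_eq
  have h2 := hP.card
  unfold df
  rw [h1, ← h2]
  push_cast
  ring

theorem Pair.lt (hP : Pair G S K x y W) : (W.erase y).card < S.card := by
  have h1 := hP.card
  have h2 := card_le_card hP.sub
  omega

/-- the value of `Y` for a pair set -/
theorem Pair.Y_eq {β : ℕ → ℤ} (hP : Pair G S K x y W) :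
    Yy G K β W = Yy (mg G x y) K β (W.erase y) + β (W.card - 2) - β (W.card - 1) +
      ((K : ℤ) + 1) - 2 * (cmn G W x y).card := by
  have h1 := hP.df_eq
  have h2 := hP.card
  have h3 : (W.erase y).card - 1 = W.card - 2 := by omega
  unfold Yy
  rw [h1, h3]
  ring

theorem Pair.Y_le {β : ℕ → ℤ} (hP : Pair G S K x y W) (hI : IH K β S.card) :
    Yy G K β W ≤ β (W.card - 2) - β (W.card - 1) + ((K : ℤ) + 1) -
      2 * (cmn G W x y).card := by
  have h1 := hP.Y_eq (β := β)
  have h2 := hI V (mg G x y) (W.erase y) hP.cr hP.lt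
  have h3 : Yy (mg G x y) K β (W.erase y) ≤ 0 := by
    unfold Yy
    linarith
  linarith

/-- a pair set contains no low common neighbour of `x` and `y` -/
theorem Pair.no_low (hP : Pair G S K x y W) {u : V} (hd : dg G S u ≤ K) (hux : G.Adj u x)
    (huy : G.Adj u y) : u ∉ W := by
  intro hu
  have h1 : u ∈ W.erase y := mem_erase.2 ⟨huy.ne, hu⟩
  have h2 := hP.cr.dg_ge h1
  have h3 := dg_mg_ne (G := G) (W := W) hux.ne huy.ne hP.hx hP.hy hP.ne
  rw [if_pos ⟨hux.symm, huy.symm⟩] at h3
  have h4 := dg_mono (G := G) hP.sub u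
  omega

/-- all colourings of a pair set give `x` and `y` different colours -/
theorem Pair.col (hP : Pair G S K x y W) {φ : V → Fin K} (hφ : PC G W φ) : φ x ≠ φ y := by
  intro he
  apply hP.cr.1
  apply cb_of_pc (φ := φ)
  have hsub : ∀ a ∈ W.erase y, a ∈ W := fun a ha => (mem_erase.1 ha).2
  rintro a ha b hb ⟨hab', hab | ⟨rfl, hab⟩ | ⟨rfl, hab⟩⟩
  · exact hφ a (hsub a ha) b (hsub b hb) hab
  · rw [he]
    exact hφ y hP.hy b (hsub b hb) hab
  · rw [he]
    exact (hφ y hP.hy a (hsub a ha) hab).symm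

end Pool.Agent.OW
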